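import Pool.Agent.ATW.Stmts

/-!
# Squad ATW, row BWS: the norm of the sum
-/

open scoped BigOperators

set_option autoImplicit false

noncomputable section

namespace Pool.Agent.PP.TW.H20

open Pool.Agent.Helper51_AWC Pool.Agent.Helper79_WRA Pool.Agent.PP Pool.Agent.PP.KF
open Pool.Agent.PP.K9 Pool.Agent.PP.K9.H97 Pool.Agent.PP.H75 Pool.Agent.PP.T3 Pool.Agent.PP.T2
open Pool.Agent.PP.T5 Pool.Agent.PP.TB Pool.Agent.PP.TW
open Pool.Agent.PP.T8 (rs pw fv rd Ip Rv vv Dat Fr)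

attribute [local instance] Ideal.Quotient.field

theorem card_odd (a : ℕ) (ha : 2 ≤ a) :
    ((Finset.range (2 ^ a)).filter (fun j => ¬ 2 ∣ j)).card = 2 ^ (a - 1) := by
  have h1 : (Finset.range (2 ^ a)).filter (fun j => ¬ 2 ∣ j) =
      (Finset.range (2 ^ (a - 1))).image (fun k => 2 * k + 1) := by
    have h2 : 2 ^ a = 2 * 2 ^ (a - 1) := by
      rw [← pow_succ']
      congr 1
      omega
    ext j
    simp only [Finset.mem_filter, Finset.mem_range, Finset.mem_image]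
    constructor
    · rintro ⟨h3, h4⟩
      exact ⟨j / 2, by omega, by omega⟩
    · rintro ⟨k, h3, h4⟩
      constructor <;> omega
  rw [h1, Finset.card_image_of_injective _ (fun x y h => by
    have h' : 2 * x + 1 = 2 * y + 1 := h
    omega), Finset.card_range]

theorem bws (hRGW : RgwStmt) (hDOR : T8.DorStmt) : BwsStmt := by
  classical
  intro M _ hM G _ _ a e V γ b d c ε y w hS s hs
  obtain ⟨r1, r2, r3, r4⟩ := hRGW M hM G a e V γ b d c ε y w hS
  have _i : Fintype G := Fintype.ofFinite G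
  have hA : (Irr G).Finite := irr_finite'
  have conv : ∀ f : (G → ℂ) → ℂ, ∑ᶠ χ ∈ Irr G, f χ = ∑ χ ∈ hA.toFinset, f χ := fun f =>
    finsum_mem_eq_finite_toFinset_sum f hA
  obtain ⟨J, hJ⟩ : ∃ J, J = (Finset.range (2 ^ a)).filter (fun j => ¬ 2 ∣ j) := ⟨_, rfl⟩
  obtain ⟨I, hI⟩ : ∃ I, I = J ×ˢ Finset.range 2 := ⟨_, rfl⟩
  obtain ⟨co, hco⟩ : ∃ co : ℕ × ℕ → ℂ, ∀ p, co p = if p.2 = 0 then 1 else (s : ℂ) :=
    ⟨_, fun _ => rfl⟩
  obtain ⟨v, hv⟩ : ∃ v : ℕ × ℕ → (G → ℂ) → ℂ, ∀ p χ, v p χ = vv M b d (y ^ p.1 * w ^ p.2) χ :=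
    ⟨_, fun _ _ => rfl⟩
  have hJm : ∀ j ∈ J, j < 2 ^ a ∧ ¬ 2 ∣ j := by
    intro j hj
    rw [hJ, Finset.mem_filter, Finset.mem_range] at hj
    exact hj
  have hIm : ∀ p ∈ I, p.1 < 2 ^ a ∧ ¬ 2 ∣ p.1 ∧ p.2 < 2 := by
    intro p hp
    rw [hI, Finset.mem_product, Finset.mem_range] at hp
    exact ⟨(hJm _ hp.1).1, (hJm _ hp.1).2, hp.2⟩
  have hcc : ∀ p, co p * starRingEnd ℂ (co p) = 1 := by
    intro p
    rw [hco]
    split_ifs with h
    · simp
    · rcases hs with rfl | rfl <;> simp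
  have hW : ∀ χ, ∑ j ∈ J, (vv M b d (y ^ j) χ + s * vv M b d ((y * w) ^ j) χ) =
      ∑ p ∈ I, co p * v p χ := by
    intro χ
    rw [hI, Finset.sum_product]
    refine Finset.sum_congr rfl fun j hj => ?_
    rw [Finset.sum_range_succ, Finset.sum_range_succ, Finset.sum_range_zero, hco, hco, hv, hv]
    rw [r4 j (hJm j hj).2]
    simp
  have horth : ∀ p ∈ I, ∀ q ∈ I, ∑ χ ∈ hA.toFinset, v p χ * starRingEnd ℂ (v q χ) =
      if p = q then (Nat.card V : ℂ) else 0 := by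
    intro p hp q hq
    obtain ⟨p1, p2, p3⟩ := hIm p hp
    obtain ⟨q1, q2, q3⟩ := hIm q hq
    have hD := hDOR 2 M hM G e V γ b d c ε hS.dat (y ^ p.1 * w ^ p.2) (y ^ q.1 * w ^ q.2)
      (r1 _ _ p2) (r1 _ _ q2)
    simp only [hv]
    rw [← conv]
    by_cases hpq : p = q
    · rw [if_pos hpq]
      exact hD.1 ⟨1, one_mem _, by rw [hpq]; group⟩
    · rw [if_neg hpq]
      refine hD.2 fun ⟨t, ht, h⟩ => hpq ?_
      have h1 := r2 q.1 p.1 q.2 p.2 q2 p2 t ht h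
      obtain ⟨h2, h3⟩ := r3 q.1 p.1 q.2 p.2 h1
      exact Prod.ext (h2.eq_of_lt_of_lt q1 p1).symm (h3.eq_of_lt_of_lt q3 p3).symm
  have hcard : (I.card : ℂ) = 2 ^ a := by
    have h1 : I.card = 2 ^ a := by
      rw [hI, Finset.card_product, Finset.card_range, hJ, card_odd a hS.le, ← pow_succ]
      congr 1
      have := hS.le
      omega
    rw [h1]
    push_cast
    rfl
  have h1 : ∑ χ ∈ hA.toFinset, (∑ p ∈ I, co p * v p χ) * starRingEnd ℂ (∑ p ∈ I, co p * v p χ) =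
      (2 ^ a : ℂ) * Nat.card V := by
    have e1 : ∀ χ : G → ℂ, (∑ p ∈ I, co p * v p χ) * starRingEnd ℂ (∑ p ∈ I, co p * v p χ) =
        ∑ p ∈ I, ∑ q ∈ I, co p * starRingEnd ℂ (co q) * (v p χ * starRingEnd ℂ (v q χ)) := by
      intro χ
      rw [map_sum, Finset.sum_mul_sum]
      refine Finset.sum_congr rfl fun p _ => Finset.sum_congr rfl fun q _ => ?_
      rw [map_mul]
      ring
    rw [Finset.sum_congr rfl fun χ _ => e1 χ, Finset.sum_comm]
    have e2 : ∀ p ∈ I, ∑ χ ∈ hA.toFinset, ∑ q ∈ I,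
        co p * starRingEnd ℂ (co q) * (v p χ * starRingEnd ℂ (v q χ)) = (Nat.card V : ℂ) := by
      intro p hp
      rw [Finset.sum_comm, Finset.sum_eq_single p]
      · rw [← Finset.mul_sum, horth p hp p hp, if_pos rfl, hcc, one_mul]
      · intro q hq hqp
        rw [← Finset.mul_sum, horth p hp q hq, if_neg (Ne.symm hqp), mul_zero]
      · intro h
        exact absurd hp h
    rw [Finset.sum_congr rfl e2, Finset.sum_const, nsmul_eq_mul, hcard]
  rw [finsum_mem_eq_finite_toFinset_sum _ hA]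
  have h2 : ((∑ χ ∈ hA.toFinset, Complex.normSq (∑ j ∈ (Finset.range (2 ^ a)).filter
      (fun j => ¬ 2 ∣ j), (vv M b d (y ^ j) χ + s * vv M b d ((y * w) ^ j) χ)) : ℝ) : ℂ) =
      ((2 ^ a * Nat.card V : ℝ) : ℂ) := by
    rw [Complex.ofReal_sum]
    push_cast
    rw [← h1]
    refine Finset.sum_congr rfl fun χ _ => ?_
    rw [← hJ, hW χ]
    exact (Complex.mul_conj _).symm
  exact_mod_cast h2

end Pool.Agent.PP.TW.H20
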